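import Mathlib

/-!
# MP_836f85_an: condition number of interpolatory spline quadrature rules

The inequality `‖w‖₁ ≤ ‖c‖ I(1)` fails, already for `ρ = 1` and cubic polynomials (a clamped knot
vector without interior knots) at the nodes `-1, -4/5, 4/5, 1`; and it also fails for quadratic
polynomials at the nodes `-1, 0, 1`, whose equioscillating spline has norm `1`, for the positive
density `ρ(x) = 1/10 + (1 + x)²`.
-/

open MeasureTheory intervalIntegral

namespace Pool.Agent.Results.MP_836f85_an.QuadratureCondition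

/-- The B-splines of the knot sequence `ξ 0 ≤ ξ 1 ≤ …` by the Cox-de Boor recursion: `bsp ξ b k i`
is the B-spline of degree `k` with knots `ξ i, …, ξ (i + k + 1)`. The conventions are the usual
ones: a quotient with denominator `0` is `0`, and the B-splines of degree `0` are the indicator
functions of the intervals `[ξ i, ξ (i + 1))`, except that the last nonempty interval before the
right end point `b` of the domain is closed at `b`. -/
noncomputable def bsp (ξ : ℕ → ℝ) (b : ℝ) : ℕ → ℕ → ℝ → ℝ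
  | 0, i, x => open Classical in
      if (ξ i ≤ x ∧ x < ξ (i + 1)) ∨ (x = b ∧ ξ i < ξ (i + 1) ∧ ξ (i + 1) = b) then 1 else 0
  | k + 1, i, x => (x - ξ i) / (ξ (i + k + 1) - ξ i) * bsp ξ b k i x +
      (ξ (i + k + 2) - x) / (ξ (i + k + 2) - ξ (i + 1)) * bsp ξ b k (i + 1) x

/-- The data of the problem: degree `p ≥ 1`, a nondecreasing knot vector `ξ 0 ≤ … ≤ ξ (n + p)`, a
positive integrable density `ρ` on `Ω = [ξ p, ξ n]`, and unisolvent nodes `x 0 < … < x (n - 1)`
in `Ω`. -/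
structure IsData (p n : ℕ) (ξ : ℕ → ℝ) (ρ : ℝ → ℝ) (x : Fin n → ℝ) : Prop where
  one_le : 1 ≤ p
  knots : ∀ i j, i ≤ j → j ≤ n + p → ξ i ≤ ξ j
  dom : ξ p < ξ n
  integrable : IntegrableOn ρ (Set.Icc (ξ p) (ξ n))
  pos : ∀ t ∈ Set.Icc (ξ p) (ξ n), 0 < ρ t
  nodes_mem : ∀ i, x i ∈ Set.Icc (ξ p) (ξ n)
  nodes_mono : StrictMono x
  unisolvent : ∀ i : Fin n, 0 < bsp ξ (ξ n) p i (x i)

/-- The functional `I(f) = ∫_Ω ρ f`. -/
noncomputable def integralI (p n : ℕ) (ξ : ℕ → ℝ) (ρ : ℝ → ℝ) (f : ℝ → ℝ) : ℝ :=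
  ∫ t in Set.Icc (ξ p) (ξ n), ρ t * f t

/-- The spline with B-spline coefficients `a`. -/
noncomputable def spline (p n : ℕ) (ξ : ℕ → ℝ) (a : Fin n → ℝ) (t : ℝ) : ℝ :=
  ∑ j : Fin n, a j * bsp ξ (ξ n) p j t

/-- `w` are the interpolatory quadrature weights: `∑ k, w k * s (x k) = I(s)` for all splines. -/
def IsWeights (p n : ℕ) (ξ : ℕ → ℝ) (ρ : ℝ → ℝ) (x : Fin n → ℝ) (w : Fin n → ℝ) : Prop :=
  ∀ a : Fin n → ℝ, ∑ k, w k * spline p n ξ a (x k) = integralI p n ξ ρ (spline p n ξ a)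

/-- `a` is the coefficient vector of the equioscillating spline on the nodes (the nodes are
numbered from `0`, so the values are `1, -1, 1, …`). -/
def IsEquioscillating (p n : ℕ) (ξ : ℕ → ℝ) (x : Fin n → ℝ) (a : Fin n → ℝ) : Prop :=
  ∀ i : Fin n, spline p n ξ a (x i) = (-1) ^ (i : ℕ)

/-- The sup norm of the spline on `Ω`. -/
noncomputable def supNorm (p n : ℕ) (ξ : ℕ → ℝ) (a : Fin n → ℝ) : ℝ :=
  sSup ((fun t => |spline p n ξ a t|) '' Set.Icc (ξ p) (ξ n))

/-- the clamped knot vector on `[-1, 1]` without interior knots: `m` times `-1`, then `1` -/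
noncomputable def kn (m : ℕ) (i : ℕ) : ℝ := if i < m then -1 else 1

lemma kn_mono (m : ℕ) : ∀ i j, i ≤ j → kn m i ≤ kn m j := by
  intro i j h
  unfold kn
  split_ifs with h1 h2
  · norm_num
  · norm_num
  · omega
  · norm_num

lemma cubic (t : ℝ) (ht : t ∈ Set.Icc (-1 : ℝ) 1) (a : Fin 4 → ℝ) :
    spline 3 4 (kn 4) a t = a 0 * ((1 - t) / 2) ^ 3 + a 1 * (3 * ((1 - t) / 2) ^ 2 * ((1 + t) / 2))
      + a 2 * (3 * ((1 - t) / 2) * ((1 + t) / 2) ^ 2) + a 3 * ((1 + t) / 2) ^ 3 := by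
  obtain ⟨h1, h2⟩ := ht
  have h : t < 1 ∨ t = 1 := lt_or_eq_of_le h2
  simp only [spline, Fin.sum_univ_four, bsp, kn]
  norm_num [h1, h]
  ring

lemma quadratic (t : ℝ) (ht : t ∈ Set.Icc (-1 : ℝ) 1) (a : Fin 3 → ℝ) :
    spline 2 3 (kn 3) a t = a 0 * ((1 - t) / 2) ^ 2 + a 1 * (2 * ((1 - t) / 2) * ((1 + t) / 2))
      + a 2 * ((1 + t) / 2) ^ 2 := by
  obtain ⟨h1, h2⟩ := ht
  have h : t < 1 ∨ t = 1 := lt_or_eq_of_le h2
  simp only [spline, Fin.sum_univ_three, bsp, kn]
  norm_num [h1, h]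
  ring

lemma kn_left {p : ℕ} : kn (p + 1) p = -1 := by simp [kn]
lemma kn_right {p : ℕ} : kn (p + 1) (p + 1) = 1 := by simp [kn]

/-- the cubic nodes -/
noncomputable def x4 : Fin 4 → ℝ := ![-1, -4 / 5, 4 / 5, 1]
/-- the quadratic nodes -/
noncomputable def x3 : Fin 3 → ℝ := ![-1, 0, 1]
/-- the cubic weights -/
noncomputable def w4 : Fin 4 → ℝ := ![-23 / 27, 50 / 27, 50 / 27, -23 / 27]
/-- the coefficients of the cubic equioscillating spline -/
noncomputable def a4 : Fin 4 → ℝ := ![1, -8, 8, -1]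
/-- the quadratic weights -/
noncomputable def w3 : Fin 3 → ℝ := ![-1 / 10, 26 / 15, 37 / 30]
/-- the coefficients of the quadratic equioscillating spline -/
noncomputable def a3 : Fin 3 → ℝ := ![1, -3, 1]

lemma x4_0 : x4 0 = -1 := rfl
lemma x4_1 : x4 1 = -4 / 5 := rfl
lemma x4_2 : x4 2 = 4 / 5 := rfl
lemma x4_3 : x4 3 = 1 := rfl
lemma w4_0 : w4 0 = -23 / 27 := rfl
lemma w4_1 : w4 1 = 50 / 27 := rfl
lemma w4_2 : w4 2 = 50 / 27 := rfl
lemma w4_3 : w4 3 = -23 / 27 := rfl
lemma a4_0 : a4 0 = 1 := rfl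
lemma a4_1 : a4 1 = -8 := rfl
lemma a4_2 : a4 2 = 8 := rfl
lemma a4_3 : a4 3 = -1 := rfl
lemma x3_0 : x3 0 = -1 := rfl
lemma x3_1 : x3 1 = 0 := rfl
lemma x3_2 : x3 2 = 1 := rfl
lemma w3_0 : w3 0 = -1 / 10 := rfl
lemma w3_1 : w3 1 = 26 / 15 := rfl
lemma w3_2 : w3 2 = 37 / 30 := rfl
lemma a3_0 : a3 0 = 1 := rfl
lemma a3_1 : a3 1 = -3 := rfl
lemma a3_2 : a3 2 = 1 := rfl

lemma forall4 {P : Fin 4 → Prop} (h0 : P 0) (h1 : P 1) (h2 : P 2) (h3 : P 3) : ∀ i, P i := by
  intro i; fin_cases i <;> assumption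

lemma forall3 {P : Fin 3 → Prop} (h0 : P 0) (h1 : P 1) (h2 : P 2) : ∀ i, P i := by
  intro i; fin_cases i <;> assumption

lemma bsp_eq_spline (p n : ℕ) (ξ : ℕ → ℝ) (j : Fin n) (t : ℝ) :
    bsp ξ (ξ n) p j t = spline p n ξ (Pi.single j 1) t := by
  classical
  unfold spline
  rw [Finset.sum_eq_single j]
  · simp
  · intro b _ hb
    simp [hb]
  · simp

lemma mem4 : ∀ i, x4 i ∈ Set.Icc (-1 : ℝ) 1 := by
  refine forall4 ?_ ?_ ?_ ?_ <;> simp only [x4_0, x4_1, x4_2, x4_3] <;> norm_num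

lemma mem3 : ∀ i, x3 i ∈ Set.Icc (-1 : ℝ) 1 := by
  refine forall3 ?_ ?_ ?_ <;> simp only [x3_0, x3_1, x3_2] <;> norm_num

lemma data4 : IsData 3 4 (kn 4) (fun _ => 1) x4 where
  one_le := by norm_num
  knots i j h _ := kn_mono 4 i j h
  dom := by norm_num [kn]
  integrable := by
    refine (continuousOn_const).integrableOn_compact isCompact_Icc
  pos := fun _ _ => one_pos
  nodes_mem := by
    rw [show kn 4 3 = -1 from kn_left, show kn 4 4 = 1 from kn_right]
    exact mem4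
  nodes_mono := by
    rw [Fin.strictMono_iff_lt_succ]
    refine forall3 ?_ ?_ ?_
    · show x4 0 < x4 1
      norm_num [x4_0, x4_1]
    · show x4 1 < x4 2
      norm_num [x4_1, x4_2]
    · show x4 2 < x4 3
      norm_num [x4_2, x4_3]
  unisolvent := by
    intro i
    rw [bsp_eq_spline, cubic _ (mem4 i)]
    revert i
    refine forall4 ?_ ?_ ?_ ?_ <;> simp only [x4_0, x4_1, x4_2, x4_3] <;>
      norm_num [Pi.single_apply, Fin.ext_iff]

lemma data3 : IsData 2 3 (kn 3) (fun t => 1 / 10 + (1 + t) ^ 2) x3 where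
  one_le := by norm_num
  knots i j h _ := kn_mono 3 i j h
  dom := by norm_num [kn]
  integrable := by
    refine Continuous.integrableOn_Icc (by fun_prop)
  pos := fun _ _ => by positivity
  nodes_mem := by
    rw [show kn 3 2 = -1 from kn_left, show kn 3 3 = 1 from kn_right]
    exact mem3
  nodes_mono := by
    rw [Fin.strictMono_iff_lt_succ]
    intro i
    fin_cases i
    · show x3 0 < x3 1
      norm_num [x3_0, x3_1]
    · show x3 1 < x3 2
      norm_num [x3_1, x3_2]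
  unisolvent := by
    intro i
    rw [bsp_eq_spline, quadratic _ (mem3 i)]
    revert i
    refine forall3 ?_ ?_ ?_ <;> simp only [x3_0, x3_1, x3_2] <;>
      norm_num [Pi.single_apply, Fin.ext_iff]

lemma integral4 (a : Fin 4 → ℝ) : integralI 3 4 (kn 4) (fun _ => 1) (spline 3 4 (kn 4) a) =
    (a 0 + a 1 + a 2 + a 3) / 2 := by
  unfold integralI
  rw [show kn 4 3 = -1 from kn_left, show kn 4 4 = 1 from kn_right]
  rw [setIntegral_congr_fun (g := fun t => (a 0 + 3 * a 1 + 3 * a 2 + a 3) / 8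
      + (-3 * a 0 - 3 * a 1 + 3 * a 2 + 3 * a 3) / 8 * t ^ 1
      + (3 * a 0 - 3 * a 1 - 3 * a 2 + 3 * a 3) / 8 * t ^ 2
      + (-a 0 + 3 * a 1 - 3 * a 2 + a 3) / 8 * t ^ 3) measurableSet_Icc
    (fun t ht => by simp only [one_mul]; rw [cubic t ht a]; ring)]
  rw [integral_Icc_eq_integral_Ioc, ← intervalIntegral.integral_of_le (by norm_num)]
  have i1 : ∀ f : ℝ → ℝ, Continuous f → IntervalIntegrable f volume (-1) 1 :=
    fun f hf => hf.intervalIntegrable _ _
  rw [intervalIntegral.integral_add (i1 _ (by fun_prop)) (i1 _ (by fun_prop)),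
    intervalIntegral.integral_add (i1 _ (by fun_prop)) (i1 _ (by fun_prop)),
    intervalIntegral.integral_add (i1 _ (by fun_prop)) (i1 _ (by fun_prop))]
  simp only [intervalIntegral.integral_const_mul, intervalIntegral.integral_const, integral_pow]
  norm_num
  ring

lemma integral3 (a : Fin 3 → ℝ) :
    integralI 2 3 (kn 3) (fun t => 1 / 10 + (1 + t) ^ 2) (spline 2 3 (kn 3) a) =
    a 0 / 3 + 13 / 15 * a 1 + 5 / 3 * a 2 := by
  unfold integralI
  rw [show kn 3 2 = -1 from kn_left, show kn 3 3 = 1 from kn_right]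
  rw [setIntegral_congr_fun (g := fun t => 11 / 40 * (a 0 + 2 * a 1 + a 2)
      + (1 / 2 * (a 0 + 2 * a 1 + a 2) + 11 / 20 * (a 2 - a 0)) * t ^ 1
      + (1 / 4 * (a 0 + 2 * a 1 + a 2) + (a 2 - a 0) + 11 / 40 * (a 0 - 2 * a 1 + a 2)) * t ^ 2
      + (1 / 2 * (a 2 - a 0) + 1 / 2 * (a 0 - 2 * a 1 + a 2)) * t ^ 3
      + 1 / 4 * (a 0 - 2 * a 1 + a 2) * t ^ 4) measurableSet_Icc
    (fun t ht => by simp only []; rw [quadratic t ht a]; ring)]
  rw [integral_Icc_eq_integral_Ioc, ← intervalIntegral.integral_of_le (by norm_num)]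
  have i1 : ∀ f : ℝ → ℝ, Continuous f → IntervalIntegrable f volume (-1) 1 :=
    fun f hf => hf.intervalIntegrable _ _
  rw [intervalIntegral.integral_add (i1 _ (by fun_prop)) (i1 _ (by fun_prop)),
    intervalIntegral.integral_add (i1 _ (by fun_prop)) (i1 _ (by fun_prop)),
    intervalIntegral.integral_add (i1 _ (by fun_prop)) (i1 _ (by fun_prop)),
    intervalIntegral.integral_add (i1 _ (by fun_prop)) (i1 _ (by fun_prop))]
  simp only [intervalIntegral.integral_const_mul, intervalIntegral.integral_const, integral_pow]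
  norm_num
  ring

/-- **The right inequality of Q1 of MP_836f85_an is false.**
(1) With the density `ρ = 1` there are a degree, a knot vector and unisolvent nodes with
`‖w‖₁ > ‖c‖ I(1)` (cubic polynomials on `[-1, 1]`).
(2) It is also false at nodes whose equioscillating spline satisfies `‖c‖ = 1`: there are a degree,
a knot vector, a positive integrable density and such unisolvent nodes with `‖w‖₁ > I(1)`. -/
theorem result :
    (∃ (p n : ℕ) (ξ : ℕ → ℝ) (x w a : Fin n → ℝ), IsData p n ξ (fun _ => 1) x ∧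
      IsWeights p n ξ (fun _ => 1) x w ∧ IsEquioscillating p n ξ x a ∧
      supNorm p n ξ a * integralI p n ξ (fun _ => 1) (fun _ => 1) < ∑ k, |w k|) ∧
    (∃ (p n : ℕ) (ξ : ℕ → ℝ) (ρ : ℝ → ℝ) (x w a : Fin n → ℝ), IsData p n ξ ρ x ∧
      IsWeights p n ξ ρ x w ∧ IsEquioscillating p n ξ x a ∧ supNorm p n ξ a = 1 ∧
      integralI p n ξ ρ (fun _ => 1) < ∑ k, |w k|) := by
  constructor
  · refine ⟨3, 4, kn 4, x4, w4, a4, data4, ?_, ?_, ?_⟩
    · intro a
      rw [integral4, Fin.sum_univ_four, cubic _ (mem4 0), cubic _ (mem4 1), cubic _ (mem4 2),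
        cubic _ (mem4 3)]
      simp only [x4_0, x4_1, x4_2, x4_3, w4_0, w4_1, w4_2, w4_3]
      ring
    · intro i
      rw [cubic _ (mem4 i)]
      revert i
      refine forall4 ?_ ?_ ?_ ?_ <;>
        simp only [x4_0, x4_1, x4_2, x4_3, a4_0, a4_1, a4_2, a4_3] <;> norm_num
    · have hI : integralI 3 4 (kn 4) (fun _ => 1) (fun _ => 1) = 2 := by
        unfold integralI
        rw [show kn 4 3 = -1 from kn_left, show kn 4 4 = 1 from kn_right]
        norm_num
      have hs : supNorm 3 4 (kn 4) a4 ≤ 2 := by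
        unfold supNorm
        rw [show kn 4 3 = -1 from kn_left, show kn 4 4 = 1 from kn_right]
        refine csSup_le ⟨_, 0, by norm_num, rfl⟩ ?_
        rintro _ ⟨t, ht, rfl⟩
        simp only
        rw [cubic t ht, a4_0, a4_1, a4_2, a4_3]
        have hu : t ^ 2 ≤ 1 := by
          obtain ⟨h1, h2⟩ := ht
          nlinarith
        have hu0 : 0 ≤ t ^ 2 := sq_nonneg t
        have : t ^ 2 * (21 - 25 * t ^ 2) ^ 2 ≤ 64 := by
          generalize t ^ 2 = u at hu hu0
          nlinarith [mul_nonneg hu0 (sq_nonneg (25 * u - 7)), sq_nonneg (25 * u - 7),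
            mul_nonneg (sub_nonneg.mpr hu) (sq_nonneg (25 * u - 7)), mul_nonneg hu0 (sub_nonneg.mpr hu)]
        refine abs_le_of_sq_le_sq ?_ (by norm_num)
        nlinarith
      rw [hI, Fin.sum_univ_four, w4_0, w4_1, w4_2, w4_3]
      have : |(-23 / 27 : ℝ)| + |(50 / 27 : ℝ)| + |(50 / 27 : ℝ)| + |(-23 / 27 : ℝ)| = 146 / 27 := by
        rw [abs_of_neg (by norm_num : (-23 / 27 : ℝ) < 0),
          abs_of_pos (by norm_num : (0 : ℝ) < 50 / 27)]
        norm_num
      rw [this]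
      linarith
  · refine ⟨2, 3, kn 3, fun t => 1 / 10 + (1 + t) ^ 2, x3, w3, a3, data3, ?_, ?_, ?_, ?_⟩
    · intro a
      rw [integral3, Fin.sum_univ_three, quadratic _ (mem3 0), quadratic _ (mem3 1),
        quadratic _ (mem3 2)]
      simp only [x3_0, x3_1, x3_2, w3_0, w3_1, w3_2]
      ring
    · intro i
      rw [quadratic _ (mem3 i)]
      revert i
      refine forall3 ?_ ?_ ?_ <;>
        simp only [x3_0, x3_1, x3_2, a3_0, a3_1, a3_2] <;> norm_num
    · unfold supNorm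
      rw [show kn 3 2 = -1 from kn_left, show kn 3 3 = 1 from kn_right]
      have hle : ∀ y ∈ ((fun t => |spline 2 3 (kn 3) a3 t|) '' Set.Icc (-1 : ℝ) 1), y ≤ 1 := by
        rintro _ ⟨t, ht, rfl⟩
        simp only
        rw [quadratic t ht, a3_0, a3_1, a3_2]
        have hu : t ^ 2 ≤ 1 := by
          obtain ⟨h1, h2⟩ := ht
          nlinarith
        rw [abs_le]
        constructor <;> nlinarith [sq_nonneg t]
      refine le_antisymm (csSup_le ⟨_, 0, by norm_num, rfl⟩ hle) ?_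
      refine le_csSup ⟨1, hle⟩ ⟨1, by norm_num, ?_⟩
      simp only
      rw [quadratic 1 (by norm_num), a3_0, a3_1, a3_2]
      norm_num
    · have hI : integralI 2 3 (kn 3) (fun t => 1 / 10 + (1 + t) ^ 2) (fun _ => 1) = 43 / 15 := by
        have h1 := integral3 (fun _ => 1)
        have h2 : integralI 2 3 (kn 3) (fun t => 1 / 10 + (1 + t) ^ 2) (fun _ => 1) =
            integralI 2 3 (kn 3) (fun t => 1 / 10 + (1 + t) ^ 2) (spline 2 3 (kn 3) fun _ => 1) := by
          unfold integralI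
          rw [show kn 3 2 = -1 from kn_left, show kn 3 3 = 1 from kn_right]
          refine setIntegral_congr_fun measurableSet_Icc fun t ht => ?_
          simp only
          rw [quadratic t ht]
          ring
        rw [h2, h1]
        norm_num
      rw [hI, Fin.sum_univ_three, w3_0, w3_1, w3_2]
      rw [abs_of_neg (by norm_num : (-1 / 10 : ℝ) < 0),
        abs_of_pos (by norm_num : (0 : ℝ) < 26 / 15), abs_of_pos (by norm_num : (0 : ℝ) < 37 / 30)]
      norm_num

end Pool.Agent.Results.MP_836f85_an.QuadratureCondition
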